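import Pool.Agent.helper70.LE.SpecN

/-!
# Project LE (MP_baa4d7_al), row NS1 (helper16)
-/

set_option autoImplicit false

namespace Pool.Agent.LE

open Pool.Agent.helper58.DC Pool.Agent.DI Pool.Agent.GR Pool.Agent.OB Pool.Agent.DR Pool.Agent.FI Pool.Agent.FI3 Pool.Agent.FI4

open Classical in
private noncomputable def NS1_I {G : Type} [Group G] (L : Subgroup G) (l : G) : ℂ := if l ∈ L then 1 else 0

private theorem NS1_KK {G : Type} [Group G] [Fintype G] (L : Subgroup G) (e : G → ℂ) (x x' : G) :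
    KK L e x x' = ∑ l, NS1_I L l * e (x * l * x'⁻¹ * l⁻¹) := by
  unfold KK
  rw [finsum_mem_def, finsum_eq_sum_of_fintype]
  refine Finset.sum_congr rfl fun l _ => ?_
  unfold NS1_I
  by_cases h : l ∈ L
  · rw [Set.indicator_of_mem (show l ∈ (L : Set G) from h), if_pos h, one_mul]
  · rw [Set.indicator_of_notMem (show l ∉ (L : Set G) from h), if_neg h, zero_mul]

theorem NS1 : NS1_stmt := by
  intro G _ _ L e hsup hidm hcls x hx hcv x'
  cases nonempty_fintype G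
  have hcvs : ∀ (a b : G → ℂ) (g : G), cv a b g = ∑ t, a t * b (t⁻¹ * g) := fun a b g => finsum_eq_sum_of_fintype _
  have hnorm : ∀ t, t ∈ L → x⁻¹ * t * x ∈ L := fun t ht => (Subgroup.mem_normalizer_iff''.1 hx t).1 ht
  have hI : ∀ s ∈ L, ∀ m, NS1_I L (s * m) = NS1_I L m := by
    intro s hs m
    unfold NS1_I
    by_cases h : m ∈ L
    · rw [if_pos h, if_pos (L.mul_mem hs h)]
    · rw [if_neg h, if_neg fun h2 => h ((L.mul_mem_cancel_left hs).1 h2)]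
  have h1 : KK L e x x' = ∑ t, e t * ∑ l, NS1_I L l * e (t⁻¹ * (x * l * x'⁻¹ * l⁻¹)) := by
    rw [NS1_KK]
    have e1 : ∀ l, NS1_I L l * e (x * l * x'⁻¹ * l⁻¹) = ∑ t, e t * (NS1_I L l * e (t⁻¹ * (x * l * x'⁻¹ * l⁻¹))) := by
      intro l
      have e2 : e (x * l * x'⁻¹ * l⁻¹) = cv e e (x * l * x'⁻¹ * l⁻¹) := by rw [hidm]
      rw [e2, hcvs, Finset.mul_sum]
      exact Finset.sum_congr rfl fun t _ => by ring
    rw [Finset.sum_congr rfl fun l _ => e1 l, Finset.sum_comm]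
    exact Finset.sum_congr rfl fun t _ => by rw [Finset.mul_sum]
  have h2 : ∀ t, e t * ∑ l, NS1_I L l * e (t⁻¹ * (x * l * x'⁻¹ * l⁻¹)) =
      e t * ∑ m, NS1_I L m * e (x⁻¹ * (t⁻¹ * (x * (x * m * x'⁻¹ * m⁻¹) * x⁻¹)) * x) := by
    intro t
    by_cases ht : t ∈ L
    · congr 1
      rw [← Equiv.sum_comp (Equiv.mulLeft (x⁻¹ * t * x)) (fun l => NS1_I L l * e (t⁻¹ * (x * l * x'⁻¹ * l⁻¹)))]
      refine Finset.sum_congr rfl fun m _ => ?_
      rw [Equiv.coe_mulLeft, hI _ (hnorm t ht)]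
      congr 1
      have e1 := hcls _ (hnorm t ht) (x⁻¹ * (t⁻¹ * (x * (x * m * x'⁻¹ * m⁻¹) * x⁻¹)) * x)
      rw [← e1]
      congr 1
      group
    · rw [hsup t ht, zero_mul, zero_mul]
  rw [h1, Finset.sum_congr rfl fun t _ => h2 t]
  have h3 : ∑ t, e t * ∑ m, NS1_I L m * e (x⁻¹ * (t⁻¹ * (x * (x * m * x'⁻¹ * m⁻¹) * x⁻¹)) * x) =
      ∑ m, NS1_I L m * cv e (fun t => e (x⁻¹ * t * x)) (x * (x * m * x'⁻¹ * m⁻¹) * x⁻¹) := by
    simp only [Finset.mul_sum]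
    rw [Finset.sum_comm]
    refine Finset.sum_congr rfl fun m _ => ?_
    rw [hcvs, Finset.mul_sum]
    exact Finset.sum_congr rfl fun t _ => by ring
  rw [h3, hcv]
  refine Finset.sum_eq_zero fun m _ => ?_
  show NS1_I L m * 0 = 0
  rw [mul_zero]

end Pool.Agent.LE
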