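import Pool.Agent.helper83.LE.SpecB

/-!
# Project LE (MP_baa4d7_al), row GP2 (helper16, port of GPW of helper52)
-/

set_option autoImplicit false

namespace Pool.Agent.LE

open Pool.Agent.helper58.DC Pool.Agent.DI Pool.Agent.GR Pool.Agent.OB Pool.Agent.DR Pool.Agent.FI Pool.Agent.FI3

theorem GP2 : GP2_stmt := by
  intro p hp G _ _ m hm ψ hψ u v huv hu hv s hs
  obtain ⟨k, hk⟩ := hu
  obtain ⟨j, hj⟩ := hm.gen s hs
  have hPR : ∀ (i : ℕ) (g : G), ψ (g ^ (m ^ i)) = ψ g := by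
    intro i
    induction i with
    | zero => intro g; rw [pow_zero, pow_one]
    | succ i ih => intro g; rw [pow_succ, pow_mul, hψ, ih]
  have hov : orderOf v ∣ Nat.card G := orderOf_dvd_natCard v
  have hou : orderOf u ∣ Nat.card G := orderOf_dvd_natCard u
  obtain ⟨k', -, hk'⟩ := (Nat.dvd_prime_pow hp).1 (orderOf_dvd_of_pow_eq_one hk)
  have h1 : u ^ (m ^ j) = u ^ s := by
    rw [pow_eq_pow_iff_modEq, hk']
    exact hj k' (hk' ▸ hou)
  have h2 : v ^ (m ^ j) = v := by
    have h3 : v ^ (m ^ j) = v ^ 1 := by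
      rw [pow_eq_pow_iff_modEq]
      have h4 := (hm.reg (orderOf v) hov hv).pow j
      rwa [one_pow] at h4
    rwa [pow_one] at h3
  have h3 : (u * v) ^ (m ^ j) = u ^ s * v := by
    rw [(show Commute u v from huv).mul_pow, h1, h2]
  rw [← h3, hPR]

end Pool.Agent.LE
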